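import Pool.Agent.W269.BL.Stm

/-! EY: choice of `y` and of private primes. -/

set_option autoImplicit false

open Polynomial

namespace Pool.Agent.W585.BL.EY

open Pool.Agent.W269.BL

universe u

theorem exists_prime {K : Type u} [Field K] (E : K[X]) (hE : E ≠ 0) :
    ∃ P : K[X], P.Monic ∧ Irreducible P ∧ ¬ P ∣ E := by
  have h1 : (1 + X * E).natDegree = E.natDegree + 1 := by
    have h2 : (X * E).natDegree = E.natDegree + 1 := natDegree_X_mul hE
    have h3 : (1 : K[X]).natDegree < (X * E).natDegree := by rw [natDegree_one, h2]; omega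
    rw [natDegree_add_eq_right_of_natDegree_lt h3, h2]
  have hu : ¬ IsUnit (1 + X * E) := by
    intro hu
    have := natDegree_eq_zero_of_isUnit hu
    omega
  obtain ⟨P, hP1, hP2, hP3⟩ := exists_monic_irreducible_factor (1 + X * E) hu
  refine ⟨P, hP1, hP2, fun h => ?_⟩
  have h4 : P ∣ X * E := Dvd.dvd.mul_left h X
  have h5 : P ∣ 1 := (dvd_add_left h4).1 hP3
  exact hP2.not_isUnit (isUnit_of_dvd_one h5)

theorem infinite_primes {K : Type u} [Field K] (E : K[X]) (hE : E ≠ 0) :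
    {P : K[X] | P.Monic ∧ Irreducible P ∧ ¬ P ∣ E}.Infinite := by
  intro hfin
  have hne : E * ∏ P ∈ hfin.toFinset, P ≠ 0 := by
    apply mul_ne_zero hE
    rw [Finset.prod_ne_zero_iff]
    intro P hP
    rw [Set.Finite.mem_toFinset] at hP
    exact hP.1.ne_zero
  obtain ⟨P, hP1, hP2, hP3⟩ := exists_prime _ hne
  apply hP3
  have hmem : P ∈ hfin.toFinset := by
    rw [Set.Finite.mem_toFinset]
    exact ⟨hP1, hP2, fun h => hP3 (Dvd.dvd.mul_right h _)⟩
  exact Dvd.dvd.mul_left (Finset.dvd_prod_of_mem (fun P => P) hmem) E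

theorem main : StmEY.{u} := by
  intro K _ _ n A b hA hb hAb c
  classical
  obtain ⟨E, hE⟩ : ∃ E : K[X], E = (∏ j, A j) *
      ∏ p ∈ (Finset.univ : Finset (Fin n × Fin n)).filter (fun p => p.1 ≠ p.2),
        (C (b p.2) * A p.1 - C (b p.1) * A p.2) := ⟨_, rfl⟩
  have hE0 : E ≠ 0 := by
    rw [hE]
    apply mul_ne_zero
    · rw [Finset.prod_ne_zero_iff]
      exact fun j _ => (hA j).ne_zero
    · rw [Finset.prod_ne_zero_iff]
      intro p hp
      rw [Finset.mem_filter] at hp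
      exact sub_ne_zero.2 (hAb p.1 p.2 hp.2)
  have hEA : ∀ j, A j ∣ E := fun j => by
    rw [hE]
    exact Dvd.dvd.mul_right (Finset.dvd_prod_of_mem A (Finset.mem_univ j)) _
  have hEB : ∀ i j, i ≠ j → (C (b j) * A i - C (b i) * A j) ∣ E := fun i j hij => by
    rw [hE]
    exact Dvd.dvd.mul_left (Finset.dvd_prod_of_mem
      (fun p : Fin n × Fin n => C (b p.2) * A p.1 - C (b p.1) * A p.2)
      (Finset.mem_filter.2 ⟨Finset.mem_univ (i, j), hij⟩)) _
  let em := (infinite_primes E hE0).natEmbedding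
  obtain ⟨P, hP⟩ : ∃ P : Fin n → K[X], P = fun j : Fin n => (em (j : ℕ) : K[X]) := ⟨_, rfl⟩
  have hP1 : ∀ j, (P j).Monic := fun j => by rw [hP]; exact (em (j : ℕ)).2.1
  have hP2 : ∀ j, Irreducible (P j) := fun j => by rw [hP]; exact (em (j : ℕ)).2.2.1
  have hP3 : ∀ j, ¬ P j ∣ E := fun j => by rw [hP]; exact (em (j : ℕ)).2.2.2
  have hPinj : ∀ i j, i ≠ j → P i ≠ P j := by
    intro i j hij h
    rw [hP] at h
    exact hij (Fin.ext (em.injective (Subtype.ext h)))
  have hcop : ∀ i j, i ≠ j → IsCoprime (P i) (P j) := by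
    intro i j hij
    rw [(hP2 i).coprime_iff_not_dvd]
    intro h
    exact hPinj i j hij (eq_of_monic_of_associated (hP1 i) (hP1 j)
      ((hP2 i).associated_of_dvd (hP2 j) h))
  have hcA : ∀ j, ∃ v : K[X], P j ^ 2 ∣ A j * v - 1 := by
    intro j
    have h1 : IsCoprime (P j ^ 2) (A j) := by
      apply IsCoprime.pow_left
      rw [(hP2 j).coprime_iff_not_dvd]
      exact fun h => hP3 j (h.trans (hEA j))
    obtain ⟨u, v, huv⟩ := h1
    refine ⟨v, -u, ?_⟩
    linear_combination huv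
  choose v hv using hcA
  obtain ⟨y0, hy0⟩ : ∃ y0 : K[X], ∀ j, y0 - v j * (P j - C (b j)) ∈
      (Ideal.span {P j ^ 2} : Ideal K[X]) := by
    apply Ideal.exists_forall_sub_mem_ideal
    intro i j hij
    change IsCoprime (Ideal.span {P i ^ 2}) (Ideal.span {P j ^ 2})
    rw [Ideal.isCoprime_span_singleton_iff]
    exact (hcop i j hij).pow
  obtain ⟨Q, hQ⟩ : ∃ Q : K[X], Q = ∏ j, P j ^ 2 := ⟨_, rfl⟩
  have hQm : Q.Monic := by rw [hQ]; exact monic_prod_of_monic _ _ fun j _ => (hP1 j).pow 2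
  have hQd : ∀ j, P j ^ 2 ∣ Q := fun j => by
    rw [hQ]; exact Finset.dvd_prod_of_mem (fun j => P j ^ 2) (Finset.mem_univ j)
  obtain ⟨k, hk⟩ : ∃ k : ℕ, k = (y0.natDegree + 1) * 2 + (c + Q.natDegree) := ⟨_, rfl⟩
  have hdeg : (Q * X ^ k).natDegree = Q.natDegree + k := by
    rw [hQm.natDegree_mul (monic_X_pow k), natDegree_X_pow]
  have hlt : y0.natDegree < (Q * X ^ k).natDegree := by rw [hdeg, hk]; omega
  have hyd : (y0 + Q * X ^ k).natDegree = Q.natDegree + k := by
    rw [natDegree_add_eq_right_of_natDegree_lt hlt, hdeg]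
  have hkey : ∀ j, P j ^ 2 ∣ A j * (y0 + Q * X ^ k) + C (b j) - P j := by
    intro j
    have h1 : P j ^ 2 ∣ y0 - v j * (P j - C (b j)) := Ideal.mem_span_singleton.1 (hy0 j)
    have h2 : A j * (y0 + Q * X ^ k) + C (b j) - P j =
        A j * (y0 - v j * (P j - C (b j))) + (A j * v j - 1) * (P j - C (b j)) +
          Q * (A j * X ^ k) := by ring
    rw [h2]
    exact dvd_add (dvd_add (Dvd.dvd.mul_left h1 _) (Dvd.dvd.mul_right (hv j) _))
      (Dvd.dvd.mul_right (hQd j) _)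
  have hdvd : ∀ j, P j ∣ A j * (y0 + Q * X ^ k) + C (b j) := by
    intro j
    have h1 : P j ∣ A j * (y0 + Q * X ^ k) + C (b j) - P j :=
      (dvd_pow_self (P j) two_ne_zero).trans (hkey j)
    exact (dvd_sub_left dvd_rfl).1 h1
  refine ⟨y0 + Q * X ^ k, ?_, ?_, ?_, P, fun j => ⟨hP1 j, hP2 j, hdvd j, ?_, ?_⟩⟩
  · apply (hQm.mul (monic_X_pow k)).add_of_right
    exact degree_lt_degree hlt
  · rw [hyd, hk]; omega
  · rw [hyd, hk]; omega
  · intro h
    have h1 : P j ^ 2 ∣ P j := by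
      have := dvd_sub h (hkey j)
      rwa [sub_sub_cancel] at this
    rw [pow_two] at h1
    have h2 : P j * P j ∣ P j * 1 := by rwa [mul_one]
    exact (hP2 j).not_isUnit (isUnit_of_dvd_one ((mul_dvd_mul_iff_left (hP1 j).ne_zero).1 h2))
  · intro i hij h
    apply hP3 j
    refine dvd_trans ?_ (hEB j i (Ne.symm hij))
    have h1 : C (b i) * A j - C (b j) * A i =
        A j * (A i * (y0 + Q * X ^ k) + C (b i)) - A i * (A j * (y0 + Q * X ^ k) + C (b j)) := by
      ring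
    rw [h1]
    exact dvd_sub (Dvd.dvd.mul_left h _) (Dvd.dvd.mul_left (hdvd j) _)

end Pool.Agent.W585.BL.EY
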